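import Pool.Agent.Q73.KT.GA
import Pool.Agent.Q234.KT.Stm2

/-!
# Project KT, job G2: the gap without a smallness condition which depends on the range
-/

set_option autoImplicit false

open scoped BigOperators
open Finset Filter Topology Pool.Agent.Q234.KT

namespace Pool.Agent.Q285.KT.G2

open Pool.Agent.Q73.KT Pool.Agent.Q73.KT.GA

theorem main (h : WalshS) : GapG := by
  intro V _ _ J _ A B w g E μ F hAB hg hW hE hμ hF
  obtain ⟨h1, h2, h3, h4, -⟩ := h V
  set f : (V → Fin 2) → ℂ := fun σ => F σ / Psi g σ with hf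
  have hFf : ∀ σ, F σ = f σ * Psi g σ := fun σ => by
    rw [hf]
    exact (div_mul_cancel₀ _ (psi_ne g σ)).symm
  set a : Finset V → ℂ := fun X => co f X with ha
  have hfa : ∀ σ, f σ = ∑ X : Finset V, a X * ch X σ := fun σ => h1 f σ
  have hdiff : ∀ (A : Finset V) (σ : V → Fin 2), f (fl A σ) - f σ = -2 * Gp a A σ := by
    intro A σ
    rw [hfa, hfa, sum_fl h]
    ring
  -- the equation for f
  set eu : V → (V → Fin 2) → ℂ := fun u σ => Complex.exp (-2 * Gp g {u} σ) with heu
  set ej : J → (V → Fin 2) → ℂ := fun j σ => Complex.exp (-2 * Gp g (A j) σ) with hej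
  have hE2 : ∀ σ, E = -∑ u, eu u σ + ∑ j, w j σ * ej j σ := by
    intro σ
    have h5 := hE σ
    unfold Hf at h5
    simp only [psi_fl h] at h5
    have h6 : Psi g σ * (-∑ u, eu u σ + ∑ j, w j σ * ej j σ) = E * Psi g σ := by
      rw [← h5, mul_add, mul_neg, Finset.mul_sum, Finset.mul_sum]
      congr 1
      exact Finset.sum_congr rfl fun j _ => by rw [hej]; ring
    rw [mul_comm] at h6
    exact (mul_right_cancel₀ (psi_ne g σ) h6).symm
  have hF2 : ∀ σ, (E + μ) * f σ = -∑ u, eu u σ * f (fl {u} σ) +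
      ∑ j, w j σ * ej j σ * f (fl (A j) σ) := by
    intro σ
    have h5 := hF σ
    unfold Hf at h5
    simp only [hFf, psi_fl h] at h5
    have h6 : (-∑ u, eu u σ * f (fl {u} σ) + ∑ j, w j σ * ej j σ * f (fl (A j) σ)) * Psi g σ =
        (E + μ) * f σ * Psi g σ := by
      rw [mul_assoc, ← h5, add_mul, neg_mul, Finset.sum_mul, Finset.sum_mul]
      congr 1
      · congr 1
        exact Finset.sum_congr rfl fun j _ => by rw [heu]; ring
      · exact Finset.sum_congr rfl fun j _ => by rw [hej]; ring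
    exact (mul_right_cancel₀ (psi_ne g σ) h6).symm
  have hF3 : ∀ σ, μ * f σ = 2 * ∑ u, eu u σ * Gp a {u} σ -
      2 * ∑ j, w j σ * ej j σ * Gp a (A j) σ := by
    intro σ
    have e1 : ∀ u, eu u σ * f (fl {u} σ) = eu u σ * f σ - 2 * (eu u σ * Gp a {u} σ) := by
      intro u
      have := hdiff {u} σ
      linear_combination eu u σ * this
    have e2 : ∀ j, w j σ * ej j σ * f (fl (A j) σ) =
        w j σ * ej j σ * f σ - 2 * (w j σ * ej j σ * Gp a (A j) σ) := by
      intro j
      have := hdiff (A j) σ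
      linear_combination w j σ * ej j σ * this
    have h5 := hF2 σ
    simp only [e1, e2] at h5
    rw [Finset.sum_sub_distrib, Finset.sum_sub_distrib, ← Finset.sum_mul, ← Finset.sum_mul,
      ← Finset.mul_sum, ← Finset.mul_sum] at h5
    have h6 := hE2 σ
    linear_combination h5 - f σ * h6
  set K : (V → Fin 2) → ℂ := fun σ => 2 * ∑ u, (eu u σ - 1) * Gp a {u} σ -
      2 * ∑ j, (w j σ * ej j σ) * Gp a (A j) σ with hK
  have hK2 : ∀ σ, K σ = μ * f σ - 2 * ∑ u, Gp a {u} σ := by
    intro σ
    rw [hF3 σ, hK]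
    simp only [sub_mul, one_mul, Finset.sum_sub_distrib]
    ring
  have hcoef : ∀ X : Finset V, co K X = (μ - 2 * X.card) * a X := by
    intro X
    have e : K = fun σ => μ * f σ - 2 * ∑ u, Gp a {u} σ := funext hK2
    rw [e, co_sub, co_smul, co_smul, co_sum]
    have : ∑ u, co (Gp a {u}) X = (X.card : ℂ) * a X := by
      have e3 : ∀ u, co (Gp a {u}) X = if u ∈ X then a X else 0 := by
        intro u
        have := co_Gp h a {u} X
        simp only [odd_single] at this
        exact this
      simp only [e3]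
      rw [← Finset.sum_filter, Finset.sum_const, nsmul_eq_mul]
      congr 2
      congr 1
      ext u
      simp
    rw [this]
    ring
  -- the sum
  set S : ℝ := ∑ X : Finset V, (X.card : ℝ) * ‖a X‖ with hS
  have hS0 : 0 ≤ S := Finset.sum_nonneg fun X _ => mul_nonneg (Nat.cast_nonneg _) (norm_nonneg _)
  have hlow : S ≤ l1 K := by
    rw [hS]
    unfold l1
    refine Finset.sum_le_sum fun X _ => ?_
    rw [hcoef, norm_mul]
    by_cases hX : X = ∅
    · rw [hX]
      simp
      positivity
    · have hc : (1 : ℝ) ≤ X.card := by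
        have := Finset.card_pos.2 (Finset.nonempty_iff_ne_empty.2 hX)
        exact_mod_cast this
      refine mul_le_mul_of_nonneg_right ?_ (norm_nonneg _)
      have h5 : |(μ - 2 * (X.card : ℂ)).re| ≤ ‖μ - 2 * (X.card : ℂ)‖ := Complex.abs_re_le_norm _
      have h6 : (μ - 2 * (X.card : ℂ)).re = μ.re - 2 * X.card := by simp
      rw [h6] at h5
      have h7 := neg_abs_le (μ.re - 2 * X.card)
      linarith
  have hGu : ∀ u, l1 (fun σ => eu u σ - 1) ≤ 1 / 6 := by
    intro u
    have h5 := l1_Gp_le h g {u} _ hg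
    have h6 : l1 (fun σ => -2 * Gp g {u} σ) ≤ 1 / 8 := by
      rw [l1_smul]
      have h7 : (({u} : Finset V).card : ℝ) = 1 := by simp
      rw [h7, one_mul] at h5
      have h9 : ‖(-2 : ℂ)‖ = 2 := by simp
      rw [h9]
      linarith
    refine (l1_exp h _).trans ?_
    have h7 := Real.exp_le_exp.2 h6
    have h8 := exp_bound
    linarith
  have hsumu : ∑ u, l1 (fun σ => Gp a {u} σ) = S := by
    have e : ∀ u, l1 (fun σ => Gp a {u} σ) = ∑ X : Finset V, if u ∈ X then ‖a X‖ else 0 := by
      intro u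
      rw [l1_Gp h, Finset.sum_filter]
      simp only [odd_single]
    simp only [e]
    rw [Finset.sum_comm, hS]
    refine Finset.sum_congr rfl fun X _ => ?_
    rw [← Finset.sum_filter, Finset.sum_const, nsmul_eq_mul]
    congr 2
    congr 1
    ext u
    simp
  have hWj : ∀ x, ∑ j ∈ univ.filter (fun j => x ∈ B j), l1 (fun σ => w j σ * ej j σ) ≤ 1 / 8 := hW
  have hsumj : ∑ j, l1 (fun σ => (w j σ * ej j σ) * Gp a (A j) σ) ≤ 1 / 8 * S := by
    have e : ∀ j, l1 (fun σ => Gp a (A j) σ) ≤
        ∑ X : Finset V, ∑ v ∈ X, if v ∈ B j then ‖a X‖ else 0 := by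
      intro j
      rw [l1_Gp h, Finset.sum_filter]
      refine Finset.sum_le_sum fun X _ => ?_
      split_ifs with hX
      · obtain ⟨v, hv⟩ := Finset.card_pos.1 hX.pos
        rw [Finset.mem_inter] at hv
        have := Finset.single_le_sum (f := fun v => if v ∈ B j then ‖a X‖ else 0)
          (fun v _ => by positivity) hv.1
        simpa [hAB j hv.2] using this
      · exact Finset.sum_nonneg fun v _ => by positivity
    calc ∑ j, l1 (fun σ => (w j σ * ej j σ) * Gp a (A j) σ)
        ≤ ∑ j, l1 (fun σ => w j σ * ej j σ) * ∑ X : Finset V, ∑ v ∈ X, (if v ∈ B j then ‖a X‖ else 0) := by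
          refine Finset.sum_le_sum fun j _ => ?_
          refine (l1_mul h _ _).trans ?_
          exact mul_le_mul_of_nonneg_left (e j) (l1_nonneg _)
      _ = ∑ X : Finset V, ∑ v ∈ X, ∑ j, (if v ∈ B j then l1 (fun σ => w j σ * ej j σ) * ‖a X‖ else 0) := by
          simp only [Finset.mul_sum, mul_ite, mul_zero]
          rw [Finset.sum_comm]
          exact Finset.sum_congr rfl fun X _ => Finset.sum_comm
      _ ≤ ∑ X : Finset V, ∑ v ∈ X, 1 / 8 * ‖a X‖ := by
          refine Finset.sum_le_sum fun X _ => Finset.sum_le_sum fun v _ => ?_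
          rw [← Finset.sum_filter, ← Finset.sum_mul]
          exact mul_le_mul_of_nonneg_right (hWj v) (norm_nonneg _)
      _ = 1 / 8 * S := by
          rw [hS, Finset.mul_sum]
          refine Finset.sum_congr rfl fun X _ => ?_
          rw [Finset.sum_const, nsmul_eq_mul]
          ring
  have hup : l1 K ≤ 7 / 12 * S := by
    have k1 : l1 K ≤ 2 * ∑ u, l1 (fun σ => (eu u σ - 1) * Gp a {u} σ) +
        2 * ∑ j, l1 (fun σ => (w j σ * ej j σ) * Gp a (A j) σ) := by
      rw [hK]
      refine (l1_sub _ _).trans ?_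
      rw [l1_smul, l1_smul]
      have h9 : ‖(2 : ℂ)‖ = 2 := by simp
      rw [h9]
      have k2 := l1_sum univ fun u (σ : V → Fin 2) => (eu u σ - 1) * Gp a {u} σ
      have k3 := l1_sum univ fun j (σ : V → Fin 2) => (w j σ * ej j σ) * Gp a (A j) σ
      linarith
    have k4 : ∑ u, l1 (fun σ => (eu u σ - 1) * Gp a {u} σ) ≤ 1 / 6 * S := by
      rw [← hsumu, Finset.mul_sum]
      refine Finset.sum_le_sum fun u _ => ?_
      refine (l1_mul h _ _).trans ?_
      exact mul_le_mul_of_nonneg_right (hGu u) (l1_nonneg _)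
    linarith
  have hSz : S = 0 := by linarith
  have haz : ∀ X : Finset V, X ≠ ∅ → a X = 0 := by
    intro X hX
    have h5 := (Finset.sum_eq_zero_iff_of_nonneg
      (fun X _ => mul_nonneg (Nat.cast_nonneg _) (norm_nonneg _))).1 (hS ▸ hSz) X
      (Finset.mem_univ X)
    have hc : (X.card : ℝ) ≠ 0 := by
      rw [Nat.cast_ne_zero]
      exact (Finset.card_pos.2 (Finset.nonempty_iff_ne_empty.2 hX)).ne'
    have h6 := (mul_eq_zero.1 h5).resolve_left hc
    exact norm_eq_zero.1 h6
  refine ⟨a ∅, fun σ => ?_⟩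
  rw [hFf, hfa, Finset.sum_eq_single (∅ : Finset V)]
  · rw [ch_empty, mul_one]
  · intro X _ hX
    rw [haz X hX, zero_mul]
  · intro h5
    exact absurd (Finset.mem_univ _) h5

end Pool.Agent.Q285.KT.G2
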